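import Mathlib

namespace Pool.Agent.Results.MP_e25dcb_al.NotSubsemilattice

variable {W : Type} [Group W]

/-- `l` is a word in `S` representing `w`. -/
def IsWordFor (S : Finset W) (l : List W) (w : W) : Prop := (∀ s ∈ l, s ∈ S) ∧ l.prod = w

/-- Word length with respect to `S`. -/
noncomputable def len (S : Finset W) (w : W) : ℕ := sInf {k | ∃ l, IsWordFor S l w ∧ l.length = k}

/-- Reduced words. -/
def IsReducedFor (S : Finset W) (l : List W) (w : W) : Prop := IsWordFor S l w ∧ l.length = len S w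

/-- The right weak order: some reduced word for `u` is an initial segment of some reduced word
for `v`. -/
def WeakLE (S : Finset W) (u v : W) : Prop :=
  ∃ a b : List W, IsReducedFor S a u ∧ IsReducedFor S b v ∧ a <+: b

/-- `m` is the greatest lower bound of `X` in the right weak order. -/
def IsMeet (S : Finset W) (X : Set W) (m : W) : Prop :=
  (∀ x ∈ X, WeakLE S m x) ∧ ∀ w, (∀ x ∈ X, WeakLE S w x) → WeakLE S w m

/-- `j` is the least upper bound of `X` in the right weak order. -/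
def IsJoin (S : Finset W) (X : Set W) (j : W) : Prop :=
  (∀ x ∈ X, WeakLE S x j) ∧ ∀ w, (∀ x ∈ X, WeakLE S x w) → WeakLE S j w

/-- Even meet involution systems. -/
def IsEMIS (S : Finset W) : Prop :=
  (∀ s ∈ S, s ≠ 1 ∧ s * s = 1) ∧ Subgroup.closure (S : Set W) = ⊤ ∧
  (∃ ε : W →* ℤˣ, ∀ s ∈ S, ε s = -1) ∧ ∀ X : Set W, X.Nonempty → ∃ m, IsMeet S X m

theorem len_eq (S : Finset W) (f : W → ℕ) (h0 : f 1 = 0) (h1 : ∀ w, f w = 0 → w = 1)
    (h2 : ∀ s ∈ S, ∀ w, f (s * w) ≤ f w + 1)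
    (h3 : ∀ w, w ≠ 1 → ∃ s ∈ S, ∃ v, w = s * v ∧ f v + 1 = f w) (w : W) :
    len S w = f w ∧ ∃ l, IsWordFor S l w ∧ l.length = f w := by
  have hex : ∀ k w, f w = k → ∃ l, IsWordFor S l w ∧ l.length = k := by
    intro k
    induction k with
    | zero => intro w hw; exact ⟨[], ⟨by simp, by simp [h1 w hw]⟩, rfl⟩
    | succ k ih =>
      intro w hw
      obtain ⟨s, hs, v, rfl, hv⟩ := h3 w (by rintro rfl; omega)
      obtain ⟨l, ⟨hl1, hl2⟩, hl3⟩ := ih v (by omega)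
      refine ⟨s :: l, ⟨?_, by simp [hl2]⟩, by simp [hl3]⟩
      intro t ht
      rcases List.mem_cons.1 ht with rfl | ht
      · exact hs
      · exact hl1 t ht
  have hlow : ∀ l : List W, (∀ s ∈ l, s ∈ S) → f l.prod ≤ l.length := by
    intro l
    induction l with
    | nil => intro _; simp [h0]
    | cons s l ih =>
      intro h
      have := h2 s (h s (by simp)) l.prod
      have := ih (fun t ht => h t (by simp [ht]))
      simp only [List.prod_cons, List.length_cons]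
      omega
  refine ⟨le_antisymm (Nat.sInf_le (hex _ w rfl)) ?_, hex _ w rfl⟩
  have hne : {k | ∃ l, IsWordFor S l w ∧ l.length = k}.Nonempty := ⟨_, hex _ w rfl⟩
  refine le_csInf hne ?_
  rintro k ⟨l, ⟨hl1, rfl⟩, rfl⟩
  exact hlow l hl1

theorem weak_iff (S : Finset W) (f : W → ℕ)
    (hf : ∀ w, len S w = f w ∧ ∃ l, IsWordFor S l w ∧ l.length = f w)
    (htri : ∀ u v, f v ≤ f u + f (u⁻¹ * v)) (u v : W) :
    WeakLE S u v ↔ f u + f (u⁻¹ * v) = f v := by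
  constructor
  · rintro ⟨a, b, ⟨⟨ha1, ha2⟩, ha3⟩, ⟨⟨hb1, hb2⟩, hb3⟩, c, rfl⟩
    have hc : IsWordFor S c (u⁻¹ * v) :=
      ⟨fun s hs => hb1 s (by simp [hs]), by rw [← hb2, ← ha2]; simp⟩
    have h1 : len S (u⁻¹ * v) ≤ c.length := Nat.sInf_le ⟨c, hc, rfl⟩
    rw [(hf _).1] at h1 ha3 hb3
    have := htri u v
    rw [List.length_append] at hb3
    omega
  · intro h
    obtain ⟨a, ha, ha3⟩ := (hf u).2
    obtain ⟨c, hc, hc3⟩ := (hf (u⁻¹ * v)).2
    refine ⟨a, a ++ c, ⟨ha, by rw [(hf _).1, ha3]⟩, ⟨⟨?_, ?_⟩, ?_⟩, c, rfl⟩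
    · intro s hs
      rcases List.mem_append.1 hs with h | h
      · exact ha.1 s h
      · exact hc.1 s h
    · rw [List.prod_append, ha.2, hc.2]; simp
    · rw [List.length_append, (hf _).1]; omega

def G : Type := Fin 16

instance : DecidableEq G := inferInstanceAs (DecidableEq (Fin 16))
instance : Fintype G := inferInstanceAs (Fintype (Fin 16))

def tbl : Fin 16 → Fin 16 → Fin 16 :=
  ![![0, 1, 2, 3, 4, 5, 6, 7, 8, 9, 10, 11, 12, 13, 14, 15],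
    ![1, 0, 5, 6, 7, 2, 3, 4, 11, 12, 13, 8, 9, 10, 15, 14],
    ![2, 8, 0, 7, 9, 14, 13, 3, 1, 4, 12, 15, 10, 6, 5, 11],
    ![3, 6, 10, 0, 8, 13, 1, 11, 4, 14, 2, 7, 15, 5, 9, 12],
    ![4, 10, 9, 5, 0, 3, 11, 14, 12, 2, 1, 6, 8, 15, 7, 13],
    ![5, 11, 1, 4, 12, 15, 10, 6, 0, 7, 9, 14, 13, 3, 2, 8],
    ![6, 3, 13, 1, 11, 10, 0, 8, 7, 15, 5, 4, 14, 2, 12, 9],
    ![7, 13, 12, 2, 1, 6, 8, 15, 9, 5, 0, 3, 11, 14, 4, 10],
    ![8, 2, 14, 13, 3, 0, 7, 9, 15, 10, 6, 1, 4, 12, 11, 5],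
    ![9, 12, 4, 14, 2, 7, 15, 5, 10, 0, 8, 13, 1, 11, 3, 6],
    ![10, 4, 3, 11, 14, 9, 5, 0, 6, 8, 15, 12, 2, 1, 13, 7],
    ![11, 5, 15, 10, 6, 1, 4, 12, 14, 13, 3, 0, 7, 9, 8, 2],
    ![12, 9, 7, 15, 5, 4, 14, 2, 13, 1, 11, 10, 0, 8, 6, 3],
    ![13, 7, 6, 8, 15, 12, 2, 1, 3, 11, 14, 9, 5, 0, 10, 4],
    ![14, 15, 8, 9, 10, 11, 12, 13, 2, 3, 4, 5, 6, 7, 0, 1],
    ![15, 14, 11, 12, 13, 8, 9, 10, 5, 6, 7, 2, 3, 4, 1, 0]]

def invt : Fin 16 → Fin 16 := ![0, 1, 2, 3, 4, 8, 6, 10, 5, 9, 7, 11, 12, 13, 14, 15]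

def lent : G → ℕ := ![0, 1, 1, 1, 1, 2, 2, 2, 2, 2, 2, 3, 3, 3, 3, 4]

def meet0 : Fin 16 → Fin 16 → Fin 16 :=
  ![![0, 0, 0, 0, 0, 0, 0, 0, 0, 0, 0, 0, 0, 0, 0, 0],
    ![0, 1, 0, 0, 0, 1, 1, 1, 0, 0, 0, 1, 1, 1, 0, 1],
    ![0, 0, 2, 0, 0, 0, 0, 2, 2, 2, 0, 0, 2, 2, 2, 2],
    ![0, 0, 0, 3, 0, 0, 3, 0, 3, 0, 3, 3, 0, 3, 3, 3],
    ![0, 0, 0, 0, 4, 4, 0, 0, 0, 4, 4, 4, 4, 0, 4, 4],
    ![0, 1, 0, 0, 4, 5, 1, 1, 0, 4, 4, 5, 5, 1, 4, 5],
    ![0, 1, 0, 3, 0, 1, 6, 1, 3, 0, 3, 6, 1, 6, 3, 6],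
    ![0, 1, 2, 0, 0, 1, 1, 7, 2, 2, 0, 1, 7, 7, 2, 7],
    ![0, 0, 2, 3, 0, 0, 3, 2, 8, 2, 3, 3, 2, 8, 8, 8],
    ![0, 0, 2, 0, 4, 4, 0, 2, 2, 9, 4, 4, 9, 2, 9, 9],
    ![0, 0, 0, 3, 4, 4, 3, 0, 3, 4, 10, 10, 4, 3, 10, 10],
    ![0, 1, 0, 3, 4, 5, 6, 1, 3, 4, 10, 11, 5, 6, 10, 11],
    ![0, 1, 2, 0, 4, 5, 1, 7, 2, 9, 4, 5, 12, 7, 9, 12],
    ![0, 1, 2, 3, 0, 1, 6, 7, 8, 2, 3, 6, 7, 13, 8, 13],
    ![0, 0, 2, 3, 4, 4, 3, 2, 8, 9, 10, 10, 9, 8, 14, 14],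
    ![0, 1, 2, 3, 4, 5, 6, 7, 8, 9, 10, 11, 12, 13, 14, 15]]

def meett (u v : G) : G := meet0 u v

instance : Mul G := ⟨tbl⟩
instance : One G := ⟨(0 : Fin 16)⟩
instance : Inv G := ⟨invt⟩

instance : Group G := Group.ofLeftAxioms (by decide +kernel) (by decide +kernel) (by decide +kernel)

def g (i : Fin 16) : G := i

def S0 : Finset G := {g 1, g 2, g 3, g 4}
def I0 : Finset G := {g 1, g 2}

theorem hlen (w : G) : len S0 w = lent w ∧ ∃ l, IsWordFor S0 l w ∧ l.length = lent w :=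
  len_eq S0 lent (by decide +kernel) (by decide +kernel) (by decide +kernel) (by decide +kernel) w

theorem wk (u v : G) : WeakLE S0 u v ↔ lent u + lent (u⁻¹ * v) = lent v :=
  weak_iff S0 lent hlen (by decide +kernel) u v

theorem meet_spec (u v w : G) : WeakLE S0 w (meett u v) ↔ WeakLE S0 w u ∧ WeakLE S0 w v := by
  simp only [wk]
  revert u v w
  decide +kernel

theorem wk_refl (u : G) : WeakLE S0 u u := by
  rw [wk]; revert u; decide +kernel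

theorem all_meets (X : Set G) (hX : X.Nonempty) : ∃ m, IsMeet S0 X m := by
  have key : ∀ T : Finset G, T.Nonempty → ∃ m, ∀ w, WeakLE S0 w m ↔ ∀ x ∈ T, WeakLE S0 w x := by
    intro T hT
    induction hT using Finset.Nonempty.cons_induction with
    | singleton a => exact ⟨a, by simp⟩
    | cons a T _ _ ih =>
      obtain ⟨m, hm⟩ := ih
      exact ⟨meett a m, fun w => by simp [meet_spec, hm]⟩
  obtain ⟨m, hm⟩ := key (Set.toFinite X).toFinset (by simpa using hX)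
  simp only [Set.Finite.mem_toFinset] at hm
  exact ⟨m, (hm m).1 (wk_refl m), fun w hw => (hm w).2 hw⟩

def H : Subgroup G where
  carrier := {x | x ∈ ({g 0, g 1, g 2, g 5, g 8, g 11, g 14, g 15} : Finset G)}
  mul_mem' := by
    intro a b
    simp only [Set.mem_ofPred_eq]
    revert a b
    decide +kernel
  one_mem' := by simp only [Set.mem_ofPred_eq]; decide +kernel
  inv_mem' := by
    intro a
    simp only [Set.mem_ofPred_eq]
    revert a
    decide +kernel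

theorem clos_le : Subgroup.closure (I0 : Set G) ≤ H := by
  rw [Subgroup.closure_le]
  intro x hx
  have : ∀ x ∈ I0, x ∈ ({g 0, g 1, g 2, g 5, g 8, g 11, g 14, g 15} : Finset G) := by decide +kernel
  exact this x hx

theorem result : ∃ (W : Type) (_ : Group W) (S I : Finset W), IsEMIS S ∧ I ⊆ S ∧
    (∃ X : Set W, X.Nonempty ∧ X ⊆ Subgroup.closure (I : Set W) ∧
      ∃ m, IsMeet S X m ∧ m ∉ Subgroup.closure (I : Set W)) ∧
    (∃ X : Set W, X ⊆ Subgroup.closure (I : Set W) ∧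
      ∃ j, IsJoin S X j ∧ j ∉ Subgroup.closure (I : Set W)) := by
  have h1 : g 1 ∈ Subgroup.closure (I0 : Set G) := Subgroup.subset_closure (by simp [I0])
  have h2 : g 2 ∈ Subgroup.closure (I0 : Set G) := Subgroup.subset_closure (by simp [I0])
  refine ⟨G, inferInstance, S0, I0, ⟨by decide +kernel, ?_, ?_, all_meets⟩, by decide +kernel,
    ⟨{g 11, g 8}, by simp, ?_, g 3, ⟨?_, ?_⟩, ?_⟩, ⟨{g 1, g 2}, ?_, g 7, ⟨?_, ?_⟩, ?_⟩⟩
  · rw [eq_top_iff]
    intro w _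
    obtain ⟨l, ⟨hl, rfl⟩, -⟩ := (hlen w).2
    exact list_prod_mem fun s hs => Subgroup.subset_closure (hl s hs)
  · exact ⟨MonoidHom.mk' (fun w => (-1) ^ lent w) (by decide +kernel), by decide +kernel⟩
  · rintro x (rfl | rfl)
    · have : g 11 = g 1 * (g 2 * g 1) := by decide +kernel
      rw [this]; exact mul_mem h1 (mul_mem h2 h1)
    · have : g 8 = g 2 * g 1 := by decide +kernel
      rw [this]; exact mul_mem h2 h1
  · rintro x (rfl | rfl) <;> rw [wk] <;> decide +kernel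
  · intro w hw
    have : g 3 = meett (g 11) (g 8) := by decide +kernel
    rw [this, meet_spec]
    exact ⟨hw _ (by simp), hw _ (by simp)⟩
  · intro h
    have : g 3 ∈ ({g 0, g 1, g 2, g 5, g 8, g 11, g 14, g 15} : Finset G) := clos_le h
    revert this; decide +kernel
  · rintro x (rfl | rfl)
    · exact h1
    · exact h2
  · rintro x (rfl | rfl) <;> rw [wk] <;> decide +kernel
  · intro w hw
    have a1 := hw (g 1) (by simp)
    have a2 := hw (g 2) (by simp)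
    rw [wk] at a1 a2 ⊢
    clear hw
    revert w
    decide +kernel
  · intro h
    have : g 7 ∈ ({g 0, g 1, g 2, g 5, g 8, g 11, g 14, g 15} : Finset G) := clos_le h
    revert this; decide +kernel

end Pool.Agent.Results.MP_e25dcb_al.NotSubsemilattice
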